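import Mathlib
import Pool.Agent.X189.MG.Core

set_option autoImplicit false

/-!
A weak-star closed ideal of the measure algebra of a discrete abelian group which is not finitely
generated.
-/

namespace Pool.Agent.Results.MP_6afee3_an.NotFinGen

open Filter Topology

/-- Membership in the measure algebra `M(G) = ℓ¹(G)` of a discrete group `G`: a complex measure is
given by its summable family `f x` of point masses. -/
def InM {G : Type} (f : G → ℂ) : Prop := Summable fun x => ‖f x‖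

/-- Membership in `C₀(G)` for a discrete group `G`: the function tends to zero off finite sets. -/
def InC0 {G : Type} (φ : G → ℂ) : Prop := Tendsto φ cofinite (𝓝 0)

/-- The convolution of two measures on a discrete group. -/
noncomputable def conv {G : Type} [Group G] (f g : G → ℂ) (x : G) : ℂ :=
  ∑' y, f y * g (y⁻¹ * x)

/-- Left ideals of `M(G)` for a discrete group `G`. -/
def IsLeftIdeal {G : Type} [Group G] (J : Set (G → ℂ)) : Prop :=
  (∀ f ∈ J, InM f) ∧ (0 : G → ℂ) ∈ J ∧ (∀ f ∈ J, ∀ g ∈ J, f + g ∈ J) ∧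
    (∀ c : ℂ, ∀ f ∈ J, c • f ∈ J) ∧ ∀ a, InM a → ∀ f ∈ J, conv a f ∈ J

/-- `J` is closed in the topology `σ(M(G), C₀(G))`: every `f` in `M(G)` such that all basic
neighbourhoods of `f`, given by finitely many functions in `C₀(G)` and `ε > 0`, meet `J`, is
in `J`. -/
def WeakStarClosed {G : Type} (J : Set (G → ℂ)) : Prop :=
  ∀ f : G → ℂ, InM f →
    (∀ F : Finset (G → ℂ), (∀ φ ∈ F, InC0 φ) → ∀ ε : ℝ, 0 < ε →
      ∃ g ∈ J, ∀ φ ∈ F, ‖∑' x, (f x - g x) * φ x‖ < ε) → f ∈ J

/-- `J` is finitely generated as a left ideal of `M(G)`. -/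
def FinGen {G : Type} [Group G] (J : Set (G → ℂ)) : Prop :=
  ∃ (n : ℕ) (μ : Fin n → G → ℂ), (∀ i, μ i ∈ J) ∧
    ∀ f ∈ J, ∃ a : Fin n → G → ℂ, (∀ i, InM (a i)) ∧ ∀ x, f x = ∑ i, conv (a i) (μ i) x

open Pool.Agent.X189.MG

noncomputable section

/-- the ideal: the functions whose transform vanishes on the characters trivial on the first `2 m`
coordinates and nontrivial on the next one, for all `m` -/
def JJ : Set (G → ℂ) :=
  {f | InM f ∧ ∀ m : ℕ, ∀ z : G,
    ∑ h ∈ H (2 * m), f (z * h) = ∑ h ∈ H (2 * m), f (z * d (2 * m) * h)}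

lemma conv_summable {a f : G → ℂ} (ha : InM a) (hf : InM f) :
    Summable fun p : G × G => ‖a p.1 * f (p.1⁻¹ * p.2)‖ := by
  have h := (ha.mul_of_nonneg hf (fun _ => norm_nonneg _) fun _ => norm_nonneg _)
  let e : G × G ≃ G × G :=
    { toFun := fun p => (p.1, p.1⁻¹ * p.2)
      invFun := fun p => (p.1, p.1 * p.2)
      left_inv := fun p => by simp
      right_inv := fun p => by simp }
  have h2 := (e.summable_iff (f := fun p : G × G => ‖a p.1‖ * ‖f p.2‖)).2 h
  refine h2.congr fun p => ?_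
  show ‖a p.1‖ * ‖f (p.1⁻¹ * p.2)‖ = _
  rw [norm_mul]

lemma conv_row {a f : G → ℂ} (ha : InM a) (hf : InM f) (x : G) :
    Summable fun y => a y * f (y⁻¹ * x) := by
  apply Summable.of_norm
  have h := ((Equiv.prodComm G G).summable_iff
    (f := fun p : G × G => ‖a p.1 * f (p.1⁻¹ * p.2)‖)).2 (conv_summable ha hf)
  exact h.prod_factor x

lemma conv_InM {a f : G → ℂ} (ha : InM a) (hf : InM f) : InM (conv a f) := by
  have h := ((Equiv.prodComm G G).summable_iff
    (f := fun p : G × G => ‖a p.1 * f (p.1⁻¹ * p.2)‖)).2 (conv_summable ha hf)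
  refine Summable.of_nonneg_of_le (fun _ => norm_nonneg _) (fun x => ?_) h.prod
  exact norm_tsum_le_tsum_norm (h.prod_factor x)

lemma ft_conv {a f : G → ℂ} (ha : InM a) (hf : InM f) (k : ℕ) :
    ft (conv a f) k = ft a k * ft f k := by
  have hs : Summable fun p : G × G => (a p.1 * f (p.1⁻¹ * p.2)) * chi k p.2 := by
    apply Summable.of_norm
    refine (conv_summable ha hf).congr fun p => ?_
    rw [norm_mul _ (chi k p.2), norm_chi, mul_one]
  have hs' : Summable fun p : G × G => (a p.2 * f (p.2⁻¹ * p.1)) * chi k p.1 :=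
    ((Equiv.prodComm G G).summable_iff
      (f := fun p : G × G => (a p.1 * f (p.1⁻¹ * p.2)) * chi k p.2)).2 hs
  have h1 : ft (conv a f) k = ∑' x, ∑' y, (a y * f (y⁻¹ * x)) * chi k x := by
    unfold ft conv
    refine tsum_congr fun x => ?_
    rw [tsum_mul_right]
  rw [h1]
  have h2 : ∑' x, ∑' y, (a y * f (y⁻¹ * x)) * chi k x =
      ∑' y, ∑' x, (a y * f (y⁻¹ * x)) * chi k x := by
    have := hs.tsum_comm' (fun b => hs.prod_factor b) (fun c => hs'.prod_factor c)
    exact this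
  rw [h2]
  unfold ft
  rw [← tsum_mul_right]
  refine tsum_congr fun y => ?_
  have h3 := ft_shift f k y⁻¹
  unfold ft at h3
  calc ∑' x, (a y * f (y⁻¹ * x)) * chi k x = a y * ∑' x, f (y⁻¹ * x) * chi k x := by
        rw [← tsum_mul_left]
        exact tsum_congr fun x => by ring
    _ = a y * (chi k y⁻¹ * ∑' x, f x * chi k x) := by rw [h3]
    _ = a y * chi k y * ∑' x, f x * chi k x := by rw [inv_self]; ring

lemma norm_ft_le {a : G → ℂ} (ha : InM a) (k : ℕ) : ‖ft a k‖ ≤ ∑' x, ‖a x‖ := by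
  unfold ft
  refine (norm_tsum_le_tsum_norm ?_).trans (le_of_eq ?_)
  · refine ha.congr fun x => ?_
    rw [norm_mul, norm_chi, mul_one]
  · refine tsum_congr fun x => ?_
    rw [norm_mul, norm_chi, mul_one]

lemma JJ_ideal : IsLeftIdeal JJ := by
  refine ⟨fun f hf => hf.1, ⟨?_, ?_⟩, ?_, ?_, ?_⟩
  · show Summable fun x : G => ‖(0 : G → ℂ) x‖
    simp
  · intro m z
    simp
  · rintro f ⟨hf, hf'⟩ g ⟨hg, hg'⟩
    refine ⟨?_, fun m z => ?_⟩
    · refine Summable.of_nonneg_of_le (fun _ => norm_nonneg _) (fun x => ?_) (hf.add hg)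
      exact norm_add_le _ _
    · simp only [Pi.add_apply, Finset.sum_add_distrib, hf' m z, hg' m z]
  · rintro c f ⟨hf, hf'⟩
    refine ⟨?_, fun m z => ?_⟩
    · refine (hf.mul_left ‖c‖).congr fun x => ?_
      rw [Pi.smul_apply, norm_smul]
    · simp only [Pi.smul_apply, smul_eq_mul, ← Finset.mul_sum, hf' m z]
  · rintro a ha f ⟨hf, hf'⟩
    refine ⟨conv_InM ha hf, fun m z => ?_⟩
    unfold conv
    rw [← Summable.tsum_finsetSum (fun h _ => conv_row ha hf (z * h)),
      ← Summable.tsum_finsetSum (fun h _ => conv_row ha hf (z * d (2 * m) * h))]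
    refine tsum_congr fun y => ?_
    rw [← Finset.mul_sum, ← Finset.mul_sum]
    congr 1
    have := hf' m (y⁻¹ * z)
    simp only [mul_assoc] at this ⊢
    exact this

lemma JJ_closed : WeakStarClosed JJ := by
  intro f hf h
  refine ⟨hf, fun m z => ?_⟩
  rw [← sub_eq_zero, ← norm_le_zero_iff]
  apply le_of_forall_pos_le_add
  intro ε hε
  rw [zero_add]
  classical
  set T : Finset G := (H (2 * m)).image (fun x => z * x) ∪
    (H (2 * m)).image (fun x => z * d (2 * m) * x) with hT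
  set c : ℝ := 2 * ((H (2 * m)).card : ℝ) with hc
  have hc0 : 0 < c := by
    have : 0 < (H (2 * m)).card := Finset.card_pos.2 ⟨1, one_mem_H _⟩
    have : (0 : ℝ) < ((H (2 * m)).card : ℝ) := by exact_mod_cast this
    positivity
  obtain ⟨g, hg, hgT⟩ := h (T.image fun x => Pi.single x (1 : ℂ)) (by
    intro φ hφ
    obtain ⟨x, -, rfl⟩ := Finset.mem_image.1 hφ
    show Tendsto _ cofinite (𝓝 0)
    refine tendsto_const_nhds.congr' ?_
    have : {x}ᶜ ∈ (cofinite : Filter G) := (Set.finite_singleton x).compl_mem_cofinite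
    filter_upwards [this] with y hy
    rw [Pi.single_eq_of_ne hy]) (ε / c) (by positivity)
  have hpt : ∀ x ∈ T, ‖f x - g x‖ < ε / c := by
    intro x hx
    have h1 := hgT (Pi.single x 1) (Finset.mem_image_of_mem _ hx)
    rw [tsum_eq_single x] at h1
    · simpa using h1
    · intro y hy
      rw [Pi.single_eq_of_ne hy, mul_zero]
  have h2 := hg.2 m z
  have h3 : ∑ h ∈ H (2 * m), f (z * h) - ∑ h ∈ H (2 * m), f (z * d (2 * m) * h) =
      ∑ h ∈ H (2 * m), (f (z * h) - g (z * h)) -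
        ∑ h ∈ H (2 * m), (f (z * d (2 * m) * h) - g (z * d (2 * m) * h)) := by
    rw [Finset.sum_sub_distrib, Finset.sum_sub_distrib, h2]
    ring
  rw [h3]
  have h4 : ‖∑ h ∈ H (2 * m), (f (z * h) - g (z * h))‖ ≤ (H (2 * m)).card * (ε / c) := by
    refine (norm_sum_le_of_le _ fun x hx => (hpt _ ?_).le).trans (by simp)
    exact Finset.mem_union_left _ (Finset.mem_image_of_mem _ hx)
  have h5 : ‖∑ h ∈ H (2 * m), (f (z * d (2 * m) * h) - g (z * d (2 * m) * h))‖ ≤
      (H (2 * m)).card * (ε / c) := by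
    refine (norm_sum_le_of_le _ fun x hx => (hpt _ ?_).le).trans (by simp)
    exact Finset.mem_union_right _ (Finset.mem_image_of_mem (fun x => z * d (2 * m) * x) hx)
  have h6 : ((H (2 * m)).card : ℝ) * (ε / c) + (H (2 * m)).card * (ε / c) = ε := by
    have : ((H (2 * m)).card : ℝ) * (ε / c) + (H (2 * m)).card * (ε / c) = c * (ε / c) := by
      rw [hc]; ring
    rw [this]
    field_simp
  calc _ ≤ _ := norm_sub_le _ _
    _ ≤ _ := add_le_add h4 h5
    _ = ε := h6

/-- the transform of an element of the ideal vanishes at the even coordinate characters -/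
lemma ft_even {f : G → ℂ} (hf : f ∈ JJ) (m : ℕ) : ft f (2 * m) = 0 := by
  obtain ⟨hf1, hf2⟩ := hf
  set k := 2 * m with hk
  have hsh : ∀ h : G, Summable fun z => ‖f (z * h)‖ := fun h =>
    ((Equiv.mulRight h).summable_iff (f := fun z => ‖f z‖)).2 hf1
  have h1 : ∀ u : G, ∑' z, (∑ h ∈ H k, f (z * u * h)) * chi k z =
      N k * (chi k u * ft f k) := by
    intro u
    have e1 : ∀ z, (∑ h ∈ H k, f (z * u * h)) * chi k z =
        ∑ h ∈ H k, f (z * u * h) * chi k z := fun z => Finset.sum_mul _ _ _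
    rw [tsum_congr e1, Summable.tsum_finsetSum]
    · have e2 : ∀ h ∈ H k, ∑' z, f (z * u * h) * chi k z = chi k u * ft f k := by
        intro h hh
        have e3 := ft_shift f k (u * h)
        have e4 : ft (fun x => f (u * h * x)) k = ∑' z, f (z * u * h) * chi k z := by
          unfold ft
          refine tsum_congr fun z => ?_
          show f (u * h * z) * chi k z = f (z * u * h) * chi k z
          rw [mul_comm (u * h) z, ← mul_assoc]
        rw [← e4, e3, chi_mul, chi_H hh, mul_one]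
      rw [Finset.sum_congr rfl e2, Finset.sum_const, nsmul_eq_mul]
      rfl
    · intro h _
      apply Summable.of_norm
      refine (hsh (u * h)).congr fun z => ?_
      rw [norm_mul, norm_chi, mul_one, mul_assoc]
  have h2 := h1 1
  have h3 := h1 (d k)
  have h4 : ∑' z, (∑ h ∈ H k, f (z * 1 * h)) * chi k z =
      ∑' z, (∑ h ∈ H k, f (z * d k * h)) * chi k z := by
    refine tsum_congr fun z => ?_
    rw [mul_one, hf2 m z]
  rw [h2, h3, chi_d_self] at h4
  have h5 : chi k 1 = 1 := chi_H (one_mem_H k)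
  rw [h5] at h4
  have h6 : N k * (2 * ft f k) = 0 := by linear_combination h4
  rcases mul_eq_zero.1 h6 with h7 | h7
  · exact absurd h7 (N_ne k)
  · simpa using h7

lemma ft_JJ_tendsto {f : G → ℂ} (hf : f ∈ JJ) : Tendsto (fun k => ft f k) atTop (𝓝 0) := by
  have h1 := ft_tendsto hf.1
  have h2 : Tendsto (fun m : ℕ => ft f (2 * m)) atTop (𝓝 (tot f)) :=
    h1.comp (tendsto_id.const_mul_atTop' (by norm_num))
  have h3 : Tendsto (fun m : ℕ => ft f (2 * m)) atTop (𝓝 0) := by
    refine tendsto_const_nhds.congr fun m => (ft_even hf m).symm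
  rwa [tendsto_nhds_unique h2 h3] at h1

lemma PP_cond {k m : ℕ} (h : k ≠ 2 * m) (z : G) :
    ∑ h ∈ H (2 * m), PP k (z * h) = ∑ h ∈ H (2 * m), PP k (z * d (2 * m) * h) := by
  rcases Nat.lt_or_gt_of_ne h with h1 | h1
  · have key : ∀ w : G, ∑ h ∈ H (2 * m), PP k (w * h) = 0 := by
      intro w
      have h2 := H_sum_mul (d_mem_H h1) (fun x => PP k (w * x))
      have h3 : ∀ x : G, PP k (w * (d k * x)) = - PP k (w * x) := by
        intro x
        rw [← PP_mul_self, mul_left_comm]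
      simp only [h3, Finset.sum_neg_distrib] at h2
      have : (2 : ℂ) * ∑ h ∈ H (2 * m), PP k (w * h) = 0 := by linear_combination -h2
      simpa using this
    rw [key, key]
  · refine Finset.sum_congr rfl fun x _ => ?_
    rw [mul_comm z (d (2 * m)), mul_assoc (d (2 * m)) z x, PP_mul_of_lt h1]

/-- the slowly decreasing combination -/
def ff (κ : ℕ → ℕ) (x : G) : ℂ := ∑' j : ℕ, ((1 / 2 : ℂ) ^ j) * PP (κ j) x

lemma norm_half_pow (j : ℕ) : ‖((1 / 2 : ℂ) ^ j)‖ = (1 / 2 : ℝ) ^ j := by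
  rw [norm_pow]
  norm_num

lemma ff_row (κ : ℕ → ℕ) (x : G) : Summable fun j : ℕ => ((1 / 2 : ℂ) ^ j) * PP (κ j) x := by
  apply Summable.of_norm
  refine Summable.of_nonneg_of_le (fun _ => norm_nonneg _) (fun j => ?_) summable_geometric_two
  rw [norm_mul, norm_half_pow]
  calc (1 / 2 : ℝ) ^ j * ‖PP (κ j) x‖ ≤ (1 / 2 : ℝ) ^ j * 1 := by
        gcongr
        exact norm_PP_le _ _
    _ = _ := mul_one _

lemma ff_sum (κ : ℕ → ℕ) :
    Summable fun p : ℕ × G => ‖((1 / 2 : ℂ) ^ p.1) * PP (κ p.1) p.2‖ := by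
  rw [summable_prod_of_nonneg (fun _ => norm_nonneg _)]
  constructor
  · intro j
    refine ((PP_summable (κ j)).mul_left ((1 / 2 : ℝ) ^ j)).congr fun x => ?_
    rw [norm_mul, norm_half_pow]
  · refine summable_geometric_two.congr fun j => ?_
    have : ∀ x, ‖((1 / 2 : ℂ) ^ j) * PP (κ j) x‖ = (1 / 2 : ℝ) ^ j * ‖PP (κ j) x‖ := fun x => by
      rw [norm_mul, norm_half_pow]
    simp only [this]
    rw [tsum_mul_left, tsum_norm_PP, mul_one]

lemma ff_InM (κ : ℕ → ℕ) : InM (ff κ) := by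
  have h := ((Equiv.prodComm G ℕ).summable_iff
    (f := fun p : ℕ × G => ‖((1 / 2 : ℂ) ^ p.1) * PP (κ p.1) p.2‖)).2 (ff_sum κ)
  refine Summable.of_nonneg_of_le (fun _ => norm_nonneg _) (fun x => ?_) h.prod
  exact norm_tsum_le_tsum_norm (h.prod_factor x)

lemma ft_ff (κ : ℕ → ℕ) (hκ : Function.Injective κ) (j : ℕ) :
    ft (ff κ) (κ j) = (1 / 2 : ℂ) ^ j := by
  have hs : Summable fun p : ℕ × G =>
      (((1 / 2 : ℂ) ^ p.1) * PP (κ p.1) p.2) * chi (κ j) p.2 := by
    apply Summable.of_norm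
    refine (ff_sum κ).congr fun p => ?_
    rw [norm_mul _ (chi (κ j) p.2), norm_chi, mul_one]
  have hs' : Summable fun p : G × ℕ =>
      (((1 / 2 : ℂ) ^ p.2) * PP (κ p.2) p.1) * chi (κ j) p.1 :=
    ((Equiv.prodComm G ℕ).summable_iff
      (f := fun p : ℕ × G => (((1 / 2 : ℂ) ^ p.1) * PP (κ p.1) p.2) * chi (κ j) p.2)).2 hs
  have h1 : ft (ff κ) (κ j) =
      ∑' x, ∑' i : ℕ, (((1 / 2 : ℂ) ^ i) * PP (κ i) x) * chi (κ j) x := by
    unfold ft ff
    exact tsum_congr fun x => by rw [tsum_mul_right]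
  have h2 : ∑' x, ∑' i : ℕ, (((1 / 2 : ℂ) ^ i) * PP (κ i) x) * chi (κ j) x =
      ∑' i : ℕ, ∑' x, (((1 / 2 : ℂ) ^ i) * PP (κ i) x) * chi (κ j) x :=
    hs.tsum_comm' (fun b => hs.prod_factor b) (fun c => hs'.prod_factor c)
  rw [h1, h2]
  have h3 : ∀ i : ℕ, ∑' x, (((1 / 2 : ℂ) ^ i) * PP (κ i) x) * chi (κ j) x =
      (1 / 2 : ℂ) ^ i * ft (PP (κ i)) (κ j) := by
    intro i
    unfold ft
    rw [← tsum_mul_left]
    exact tsum_congr fun x => by ring
  rw [tsum_congr h3, tsum_eq_single j]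
  · rw [ft_PP_self, mul_one]
  · intro i hi
    rw [ft_PP_ne (fun h => hi (hκ h.symm)), mul_zero]

lemma ff_mem (κ : ℕ → ℕ) (hodd : ∀ j m, κ j ≠ 2 * m) : ff κ ∈ JJ := by
  refine ⟨ff_InM κ, fun m z => ?_⟩
  unfold ff
  rw [← Summable.tsum_finsetSum (fun h _ => ff_row κ (z * h)),
    ← Summable.tsum_finsetSum (fun h _ => ff_row κ (z * d (2 * m) * h))]
  refine tsum_congr fun j => ?_
  rw [← Finset.mul_sum, ← Finset.mul_sum, PP_cond (hodd j m) z]

lemma not_finGen : ¬ FinGen JJ := by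
  rintro ⟨n, μ, hμ, hgen⟩
  have hF : Tendsto (fun k => ∑ i, ‖ft (μ i) k‖) atTop (𝓝 0) := by
    have : Tendsto (fun k => ∑ i, ‖ft (μ i) k‖) atTop (𝓝 (∑ _i : Fin n, (0 : ℝ))) := by
      refine tendsto_finsetSum _ fun i _ => ?_
      have := (ft_JJ_tendsto (hμ i)).norm
      rwa [norm_zero] at this
    simpa using this
  have hev : ∀ j : ℕ, ∃ K : ℕ, ∀ k ≥ K, ∑ i, ‖ft (μ i) k‖ < (1 / 4 : ℝ) ^ j := fun j =>
    eventually_atTop.1 (hF.eventually (gt_mem_nhds (by positivity)))
  choose K hK using hev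
  -- an increasing sequence of odd indices
  let κ : ℕ → ℕ := fun j => 2 * (j + ∑ i ∈ Finset.range (j + 1), K i) + 1
  have hmono : StrictMono κ := by
    refine strictMono_nat_of_lt_succ fun j => ?_
    show 2 * (j + ∑ i ∈ Finset.range (j + 1), K i) + 1 <
      2 * (j + 1 + ∑ i ∈ Finset.range (j + 1 + 1), K i) + 1
    rw [Finset.sum_range_succ _ (j + 1)]
    omega
  have hκK : ∀ j, K j ≤ κ j := by
    intro j
    show K j ≤ 2 * (j + ∑ i ∈ Finset.range (j + 1), K i) + 1
    rw [Finset.sum_range_succ]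
    omega
  have hodd : ∀ j m, κ j ≠ 2 * m := by
    intro j m
    show 2 * (j + ∑ i ∈ Finset.range (j + 1), K i) + 1 ≠ 2 * m
    omega
  obtain ⟨a, ha, hfa⟩ := hgen (ff κ) (ff_mem κ hodd)
  set C : ℝ := ∑ i, ∑' x, ‖a i x‖ with hC
  have hbound : ∀ j : ℕ, (1 / 2 : ℝ) ^ j ≤ C * (1 / 4 : ℝ) ^ j := by
    intro j
    have h1 : ft (ff κ) (κ j) = ∑ i, ft (a i) (κ j) * ft (μ i) (κ j) := by
      have : ff κ = fun x => ∑ i, conv (a i) (μ i) x := funext hfa
      rw [this]
      have h2 : ft (fun x => ∑ i, conv (a i) (μ i) x) (κ j) =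
          ∑ i, ft (conv (a i) (μ i)) (κ j) := by
        unfold ft
        rw [← Summable.tsum_finsetSum fun i _ => summable_mul_chi (conv_InM (ha i) (hμ i).1) (κ j)]
        exact tsum_congr fun x => Finset.sum_mul _ _ _
      rw [h2]
      exact Finset.sum_congr rfl fun i _ => ft_conv (ha i) (hμ i).1 (κ j)
    rw [ft_ff κ hmono.injective j] at h1
    have h3 : ‖(1 / 2 : ℂ) ^ j‖ ≤ ∑ i, ‖ft (a i) (κ j)‖ * ‖ft (μ i) (κ j)‖ := by
      rw [h1]
      refine (norm_sum_le _ _).trans (le_of_eq ?_)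
      exact Finset.sum_congr rfl fun i _ => norm_mul _ _
    rw [norm_half_pow] at h3
    refine h3.trans ?_
    rw [hC, Finset.sum_mul]
    refine Finset.sum_le_sum fun i _ => ?_
    have h4 : ‖ft (μ i) (κ j)‖ ≤ (1 / 4 : ℝ) ^ j := by
      refine le_trans ?_ (hK j (κ j) (hκK j)).le
      exact Finset.single_le_sum (f := fun i => ‖ft (μ i) (κ j)‖) (fun _ _ => norm_nonneg _)
        (Finset.mem_univ i)
    exact mul_le_mul (norm_ft_le (ha i) _) h4 (norm_nonneg _) (tsum_nonneg fun _ => norm_nonneg _)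
  obtain ⟨j, hj⟩ := pow_unbounded_of_one_lt C (one_lt_two)
  have h1 := hbound j
  have h2 : (1 / 2 : ℝ) ^ j = (2 : ℝ) ^ j * (1 / 4 : ℝ) ^ j := by
    rw [← mul_pow]
    norm_num
  rw [h2] at h1
  have h3 : (0 : ℝ) < (1 / 4 : ℝ) ^ j := by positivity
  have := le_of_mul_le_mul_right h1 h3
  linarith

/-- **A weak-star closed ideal which is not finitely generated.**  There is a discrete abelian
group `G` and a left ideal `J` of the measure algebra `M(G) = ℓ¹(G)` which is closed in the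
topology `σ(M(G), C₀(G))` and is not finitely generated. -/
theorem result : ∃ (G : Type) (_ : CommGroup G) (J : Set (G → ℂ)),
    IsLeftIdeal J ∧ WeakStarClosed J ∧ ¬ FinGen J :=
  ⟨G, inferInstance, JJ, JJ_ideal, JJ_closed, not_finGen⟩

end

end Pool.Agent.Results.MP_6afee3_an.NotFinGen
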